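import Pool.Agent.QUD.StmtsR

/-!
# Row PCG of squad QUD: isometries and polygons
-/

set_option autoImplicit false

namespace Pool.Agent.QUD.H90

open MeasureTheory Complex Pool.Agent.H16Iso
open Pool.Agent.H1Gen (det CCW poly)

theorem pcg : PcgStmt := by
  intro v w g hg
  refine ⟨g, ?_⟩
  have h1 : g '' (convexHull ℝ (Set.range v)) = convexHull ℝ (Set.range w) := by
    have h2 : (g : ℂ → ℂ) = (g.toRealAffineIsometryEquiv.toAffineEquiv.toAffineMap : ℂ → ℂ) := by
      ext x
      simp
    rw [← hg, h2]
    exact AffineMap.image_convexHull _ _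
  show g '' (interior (convexHull ℝ (Set.range v))) = interior (convexHull ℝ (Set.range w))
  rw [← h1]
  exact g.toHomeomorph.image_interior _

end Pool.Agent.QUD.H90
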