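import Pool.Agent.QUD.StmtsXU

/-!
# Squad QUD, row XCE (helper90): equality of the constants of two genuine items
-/

set_option autoImplicit false

namespace Pool.Agent.QUD.H90

open Real Set Pool.Agent.AEU Pool.Agent.AEU.H12 Pool.Agent.XQ Pool.Agent.XQ.U

theorem xce : XceStmt := by
  intro b η η' hb1 hb2 hη0 hη1 hη'0 hη'1 he
  have hb0 : 0 < b := by linarith
  have hpi := Real.pi_pos
  have hbη : 2 * b * η < 2 * π - b * π := by
    have h1 : 2 * b * η < 2 * b * (π / b - π / 2) := by
      have : 0 < 2 * b := by linarith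
      exact mul_lt_mul_of_pos_left hη1 this
    have h2 : 2 * b * (π / b - π / 2) = 2 * π - b * π := by
      field_simp
    linarith
  have hbη0 : 0 ≤ 2 * b * η := by positivity
  have hbπ : π < b * π := by nlinarith
  have hbπ2 : b * π < 2 * π := by nlinarith
  have hbη' : 2 * b * η' < 2 * π := by
    have h1 : b * η' < π := by
      have := mul_lt_mul_of_pos_left hη'1 hb0
      rwa [mul_div_cancel₀ _ hb0.ne'] at this
    linarith
  have hbη'0 : 0 < 2 * b * η' := by positivity
  have hsin : sin (b * π) < 0 := by
    have h1 : 0 < sin (b * π - π) := Real.sin_pos_of_pos_of_lt_pi (by linarith) (by linarith)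
    rw [Real.sin_sub_pi] at h1
    linarith
  have hK : 0 < b / 2 * (-sin (b * π)) := by
    have : 0 < -sin (b * π) := by linarith
    positivity
  have hcos : cos (b * π) = cos (2 * π - b * π) := (Real.cos_two_pi_sub _).symm
  have hD : 0 < cos (2 * b * η) - cos (b * π) := by
    rw [hcos]
    have := Real.cos_lt_cos_of_nonneg_of_le_pi hbη0 (by linarith : 2 * π - b * π ≤ π) hbη
    linarith
  unfold Ceta at he
  have hD' : cos (2 * b * η') - cos (b * π) ≠ 0 := by
    intro h0
    rw [h0, div_zero] at he
    have := div_pos hK hD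
    linarith
  have hc : cos (2 * b * η) = cos (2 * b * η') := by
    rw [div_eq_div_iff hD.ne' hD'] at he
    have := mul_left_cancel₀ hK.ne' he
    linarith
  have hmain : η' = η ∨ η' = π / b - η := by
    by_cases hy : 2 * b * η' ≤ π
    · left
      have h1 : 2 * b * η = 2 * b * η' :=
        Real.injOn_cos ⟨hbη0, by linarith⟩ ⟨hbη'0.le, hy⟩ hc
      have h2 : (2 * b) ≠ 0 := by positivity
      exact (mul_left_cancel₀ h2 h1).symm
    · right
      rw [not_le] at hy
      have h1 : cos (2 * b * η) = cos (2 * π - 2 * b * η') := by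
        rw [hc, Real.cos_two_pi_sub]
      have h2 : 2 * b * η = 2 * π - 2 * b * η' :=
        Real.injOn_cos ⟨hbη0, by linarith⟩ ⟨by linarith, by linarith⟩ h1
      field_simp
      linarith
  refine ⟨hmain, ?_⟩
  rcases hmain with h | h
  · linarith
  · linarith

end Pool.Agent.QUD.H90
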